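import Pool.Agent.H24.SCG2.Stmts1
import Pool.Agent.H26.SCG.LP

/-!
Module BIG of the project SCG2: the structure of a subgroup of `GL(2,F)` which contains an
element of order six with rational fixed points and elements moving these points.
-/

set_option autoImplicit false

namespace Pool.Agent.H63.SCG2

open Matrix Pool.SCG OnePoint Pool.Agent.H26.SCG

variable {F : Type} [Field F]

/-- fixed points different from infinity -/
theorem act_fix_coe (g : GL (Fin 2) F) (k : AlgebraicClosure F) :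
    act F g (k : Om F) = (k : Om F) ↔
      am F ((g : M2 F) 0 0) * k + am F ((g : M2 F) 0 1) =
        k * (am F ((g : M2 F) 1 0) * k + am F ((g : M2 F) 1 1)) := by
  classical
  by_cases h : am F ((g : M2 F) 1 0) * k + am F ((g : M2 F) 1 1) = 0
  · have h1 : act F g (k : Om F) = ∞ := by
      rw [act_apply, smul_some_eq_ite]
      have h' : (Matrix.GeneralLinearGroup.map (am F) g) 1 0 * k +
          (Matrix.GeneralLinearGroup.map (am F) g) 1 1 = 0 := h
      rw [if_pos h']
    rw [h1, h, mul_zero]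
    constructor
    · intro h2
      exact absurd h2 (OnePoint.infty_ne_coe k)
    · intro h2
      exfalso
      have hdet := g.det_ne_zero
      rw [det_fin_two] at hdet
      have h3 : am F ((g : M2 F) 0 0 * (g : M2 F) 1 1 - (g : M2 F) 0 1 * (g : M2 F) 1 0) = 0 := by
        rw [map_sub, map_mul, map_mul]
        linear_combination (am F ((g : M2 F) 0 0)) * h - (am F ((g : M2 F) 1 0)) * h2
      exact hdet ((_root_.map_eq_zero _).1 h3)
  · rw [act_coe g k h, OnePoint.coe_eq_coe, div_eq_iff h]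

/-- the discriminant of an element with exactly one fixed point is zero -/
theorem par_disc (h2 : (2 : F) ≠ 0) (g : GL (Fin 2) F) (x : Om F)
    (h : ∀ y : Om F, act F g y = y ↔ y = x) :
    ((g : M2 F) 0 0 - (g : M2 F) 1 1) ^ 2 + 4 * (g : M2 F) 0 1 * (g : M2 F) 1 0 = 0 := by
  have h2' : (2 : AlgebraicClosure F) ≠ 0 := by
    have := (_root_.map_ne_zero (am F)).2 h2
    rwa [map_ofNat] at this
  by_cases hc : (g : M2 F) 1 0 = 0
  · rw [hc, mul_zero, add_zero]
    by_contra hne
    have hne' : (g : M2 F) 1 1 - (g : M2 F) 0 0 ≠ 0 := by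
      intro h3
      apply hne
      linear_combination (-((g : M2 F) 0 0) + (g : M2 F) 1 1) * h3
    have hne2 : am F ((g : M2 F) 1 1) - am F ((g : M2 F) 0 0) ≠ 0 := by
      rw [← map_sub]
      exact (_root_.map_ne_zero _).2 hne'
    have hinf := (h ∞).1 ((act_infty g).2 hc)
    have h3 := (act_fix_coe g (am F ((g : M2 F) 0 1) /
        (am F ((g : M2 F) 1 1) - am F ((g : M2 F) 0 0)))).2 (by
      rw [hc, map_zero, zero_mul, zero_add]
      field_simp
      ring)
    have h4 := (h _).1 h3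
    rw [← hinf] at h4
    exact OnePoint.coe_ne_infty _ h4
  · by_contra hne
    have hc' : am F ((g : M2 F) 1 0) ≠ 0 := (_root_.map_ne_zero _).2 hc
    obtain ⟨δ, hδ⟩ := IsAlgClosed.exists_pow_nat_eq (n := 2)
      (am F (((g : M2 F) 0 0 - (g : M2 F) 1 1) ^ 2 + 4 * (g : M2 F) 0 1 * (g : M2 F) 1 0))
      (by norm_num)
    have hδ0 : δ ≠ 0 := by
      rintro rfl
      apply hne
      rw [zero_pow (by norm_num)] at hδ
      exact (_root_.map_eq_zero _).1 hδ.symm
    rw [map_add, map_pow, map_sub, map_mul, map_mul, map_ofNat] at hδ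
    have hroot : ∀ ε : AlgebraicClosure F, ε ^ 2 = 1 →
        act F g (((am F ((g : M2 F) 0 0) - am F ((g : M2 F) 1 1) + ε * δ) /
          (2 * am F ((g : M2 F) 1 0)) : AlgebraicClosure F) : Om F) =
          (((am F ((g : M2 F) 0 0) - am F ((g : M2 F) 1 1) + ε * δ) /
          (2 * am F ((g : M2 F) 1 0)) : AlgebraicClosure F) : Om F) := by
      intro ε hε
      refine (act_fix_coe g _).2 ?_
      field_simp
      linear_combination (-1 : AlgebraicClosure F) * hδ - δ ^ 2 * hε
    have e1 := (h _).1 (hroot 1 (by norm_num))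
    have e2 := (h _).1 (hroot (-1) (by norm_num))
    have e3 := OnePoint.coe_injective (e1.trans e2.symm)
    rw [div_eq_div_iff (mul_ne_zero h2' hc') (mul_ne_zero h2' hc')] at e3
    have e4 : (2 * am F ((g : M2 F) 1 0)) * (2 * δ) = 0 := by linear_combination e3
    rcases mul_eq_zero.1 e4 with h5 | h5
    · exact mul_ne_zero h2' hc' h5
    · exact mul_ne_zero h2' hδ0 h5

/-- an element with discriminant zero which is not scalar has exactly one fixed point -/
theorem disc_par (h2 : (2 : F) ≠ 0) (g : GL (Fin 2) F)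
    (hd : ((g : M2 F) 0 0 - (g : M2 F) 1 1) ^ 2 + 4 * (g : M2 F) 0 1 * (g : M2 F) 1 0 = 0)
    (hs : ∀ c : F, (g : M2 F) ≠ !![c, 0; 0, c]) :
    ∃ x : Om F, ∀ y : Om F, act F g y = y ↔ y = x := by
  have h2' : (2 : AlgebraicClosure F) ≠ 0 := by
    have := (_root_.map_ne_zero (am F)).2 h2
    rwa [map_ofNat] at this
  by_cases hc : (g : M2 F) 1 0 = 0
  · rw [hc, mul_zero, add_zero] at hd
    have had : (g : M2 F) 0 0 = (g : M2 F) 1 1 := sub_eq_zero.1 (pow_eq_zero_iff (by norm_num) |>.1 hd)
    have hb : (g : M2 F) 0 1 ≠ 0 := by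
      intro hb
      apply hs ((g : M2 F) 0 0)
      ext i j
      fin_cases i <;> fin_cases j <;> simp [hb, hc, had]
    refine ⟨∞, fun y => ?_⟩
    induction y using OnePoint.rec with
    | infty => exact ⟨fun _ => rfl, fun _ => (act_infty g).2 hc⟩
    | coe k =>
      rw [act_fix_coe]
      constructor
      · intro h3
        exfalso
        apply hb
        rw [hc, had, map_zero, zero_mul, zero_add] at h3
        have h4 : am F ((g : M2 F) 0 1) = 0 := by linear_combination h3
        exact (_root_.map_eq_zero _).1 h4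
      · intro h3
        exact absurd h3 (OnePoint.coe_ne_infty k)
  · have hc' : am F ((g : M2 F) 1 0) ≠ 0 := (_root_.map_ne_zero _).2 hc
    have hd' : (am F ((g : M2 F) 0 0) - am F ((g : M2 F) 1 1)) ^ 2 +
        4 * am F ((g : M2 F) 0 1) * am F ((g : M2 F) 1 0) = 0 := by
      have := congrArg (am F) hd
      rwa [map_add, map_pow, map_sub, map_mul, map_mul, map_ofNat, map_zero] at this
    refine ⟨(((am F ((g : M2 F) 0 0) - am F ((g : M2 F) 1 1)) /
          (2 * am F ((g : M2 F) 1 0)) : AlgebraicClosure F) : Om F), fun y => ?_⟩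
    induction y using OnePoint.rec with
    | infty =>
      constructor
      · intro h3
        exact absurd ((act_infty g).1 h3) hc
      · intro h3
        exact absurd h3 (OnePoint.infty_ne_coe _)
    | coe k =>
      rw [act_fix_coe, OnePoint.coe_eq_coe, eq_div_iff (mul_ne_zero h2' hc')]
      constructor
      · intro h3
        have h4 : (k * (2 * am F ((g : M2 F) 1 0)) -
            (am F ((g : M2 F) 0 0) - am F ((g : M2 F) 1 1))) ^ 2 = 0 := by
          linear_combination hd' - 4 * am F ((g : M2 F) 1 0) * h3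
        exact sub_eq_zero.1 (pow_eq_zero_iff (by norm_num) |>.1 h4)
      · intro h3
        have h4 : (4 * am F ((g : M2 F) 1 0)) * (am F ((g : M2 F) 0 0) * k + am F ((g : M2 F) 0 1) -
            k * (am F ((g : M2 F) 1 0) * k + am F ((g : M2 F) 1 1))) = 0 := by
          linear_combination hd' - (k * (2 * am F ((g : M2 F) 1 0)) -
            (am F ((g : M2 F) 0 0) - am F ((g : M2 F) 1 1))) * h3
        have h5 : (4 : AlgebraicClosure F) ≠ 0 := by
          have e : (4 : AlgebraicClosure F) = 2 * 2 := by norm_num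
          rw [e]
          exact mul_ne_zero h2' h2'
        rcases mul_eq_zero.1 h4 with h6 | h6
        · exact absurd h6 (mul_ne_zero h5 hc')
        · exact sub_eq_zero.1 h6

/-- the `p`-th power of an element with discriminant zero is scalar -/
theorem pow_char (p : ℕ) [Fact p.Prime] [CharP F p] (h2 : (2 : F) ≠ 0) (g : GL (Fin 2) F)
    (hd : ((g : M2 F) 0 0 - (g : M2 F) 1 1) ^ 2 + 4 * (g : M2 F) 0 1 * (g : M2 F) 1 0 = 0) :
    ∃ c : F, ((g ^ p : GL (Fin 2) F) : M2 F) = !![c, 0; 0, c] := by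
  set lam : F := ((g : M2 F) 0 0 + (g : M2 F) 1 1) / 2 with hlam
  set n : M2 F := (g : M2 F) - lam • (1 : M2 F) with hn
  have hn2 : n ^ 2 = 0 := by
    have e00 : n 0 0 = ((g : M2 F) 0 0 - (g : M2 F) 1 1) / 2 := by
      rw [hn, hlam]
      simp
      field_simp
      ring
    have e11 : n 1 1 = -(((g : M2 F) 0 0 - (g : M2 F) 1 1) / 2) := by
      rw [hn, hlam]
      simp
      field_simp
      ring
    have e01 : n 0 1 = (g : M2 F) 0 1 := by
      rw [hn]
      simp
    have e10 : n 1 0 = (g : M2 F) 1 0 := by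
      rw [hn]
      simp
    have h4 : (4 : F) ≠ 0 := by
      have e : (4 : F) = 2 * 2 := by norm_num
      rw [e]
      exact mul_ne_zero h2 h2
    have hq : (((g : M2 F) 0 0 - (g : M2 F) 1 1) / 2) ^ 2 + (g : M2 F) 0 1 * (g : M2 F) 1 0 = 0 := by
      rw [div_pow]
      field_simp
      linear_combination hd
    rw [pow_two]
    ext i j
    rw [Matrix.mul_apply, Fin.sum_univ_two]
    fin_cases i <;> fin_cases j
    · show n 0 0 * n 0 0 + n 0 1 * n 1 0 = 0
      rw [e00, e01, e10]
      linear_combination hq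
    · show n 0 0 * n 0 1 + n 0 1 * n 1 1 = 0
      rw [e00, e01, e11]
      ring
    · show n 1 0 * n 0 0 + n 1 1 * n 1 0 = 0
      rw [e00, e10, e11]
      ring
    · show n 1 0 * n 0 1 + n 1 1 * n 1 1 = 0
      rw [e01, e10, e11]
      linear_combination hq
  have hp2 : 2 ≤ p := (Fact.out : p.Prime).two_le
  have hnp : n ^ p = 0 := by
    obtain ⟨k, rfl⟩ := Nat.exists_eq_add_of_le hp2
    rw [pow_add, hn2, zero_mul]
  have hg : (g : M2 F) = lam • (1 : M2 F) + n := by
    rw [hn]
    abel
  refine ⟨lam ^ p, ?_⟩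
  rw [Units.val_pow_eq_pow_val, hg]
  have hcomm : Commute (lam • (1 : M2 F)) n := by
    have : Commute (1 : M2 F) n := Commute.one_left n
    exact this.smul_left lam
  have : CharP (M2 F) p := Matrix.charP p
  rw [add_pow_char_of_commute p hcomm, hnp, add_zero, smul_pow, one_pow]
  ext i j
  fin_cases i <;> fin_cases j <;> simp

/-- the order modulo scalars of an element with discriminant zero -/
theorem order_par (p : ℕ) [Fact p.Prime] [CharP F p] (h2 : (2 : F) ≠ 0)
    (X : Subgroup (GL (Fin 2) F)) (v : X.map (act F)) (x : Om F) (hv : Par v x) :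
    v ^ p = 1 := by
  obtain ⟨v, hv'⟩ := v
  obtain ⟨g, hg, rfl⟩ := Subgroup.mem_map.1 hv'
  have hd := par_disc h2 g x (fun y => hv y)
  obtain ⟨c, hc⟩ := pow_char p h2 g hd
  apply Subtype.ext
  show (act F g) ^ p = 1
  rw [← map_pow]
  exact act_scalar hc

/-- the elements fixing exactly one given point form a group whose order is a power of `p` -/
theorem card_par (p : ℕ) [Fact p.Prime] (K Ω : Type) [Group K] [Finite K] [MulAction K Ω]
    (hZ : Zas K Ω) (x : Ω) (hp : ∀ v : K, Par v x → v ^ p = 1) :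
    ∃ n : ℕ, Nat.card {v : K // v = 1 ∨ Par v x} = p ^ n := by
  have hinv : ∀ v : K, Par v x → Par v⁻¹ x := by
    intro v hv y
    rw [inv_smul_eq_iff, eq_comm]
    exact hv y
  let P : Subgroup K :=
    { carrier := {v | v = 1 ∨ Par v x}
      one_mem' := Or.inl rfl
      mul_mem' := by
        rintro a b (rfl | ha) (rfl | hb)
        · left
          exact one_mul _
        · right
          rwa [one_mul]
        · right
          rwa [mul_one]
        · exact hZ.uni_mul x a b ha hb
      inv_mem' := by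
        rintro a (rfl | ha)
        · left
          exact inv_one
        · right
          exact hinv a ha }
  have hP : IsPGroup p P := by
    rintro ⟨v, hv⟩
    refine ⟨1, ?_⟩
    apply Subtype.ext
    show v ^ (p ^ 1) = 1
    rw [pow_one]
    rcases hv with rfl | hv
    · exact one_pow _
    · exact hp v hv
  obtain ⟨n, hn⟩ := IsPGroup.iff_card.1 hP
  exact ⟨n, hn⟩

theorem big_thm (hDPAR : DPARStmt) (hDK1 : DK1Stmt) (hZAX : ZAXStmt) : BIGStmt := by
  intro p _ F _ _ _ hp6 X h x1 g0 l β hh hx1 hg0 hl hh' hx1' h00 h10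
  have hpp : p.Prime := Fact.out
  have hp5 : 5 ≤ p := by
    have := hpp.two_le
    omega
  have h2 : (2 : F) ≠ 0 := by
    intro h2
    have h3 : ((2 : ℕ) : F) = 0 := by exact_mod_cast h2
    have h4 := (CharP.cast_eq_zero_iff F p 2).1 h3
    have := Nat.le_of_dvd (by norm_num) h4
    omega
  have h3 : (3 : F) ≠ 0 := by
    intro h3
    have h3' : ((3 : ℕ) : F) = 0 := by exact_mod_cast h3
    have h4 := (CharP.cast_eq_zero_iff F p 3).1 h3'
    have := Nat.le_of_dvd (by norm_num) h4
    omega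
  have hl0 : l ≠ 0 := by
    rintro rfl
    norm_num at hl
  have hl3 : l ^ 3 = 1 := by linear_combination (l - 1) * hl
  have hl1 : 1 - l ≠ 0 := by
    intro h1
    apply h3
    linear_combination hl + (l + 2) * h1
  have hlp : 1 + l ≠ 0 := by
    intro h1
    have : (1 : F) = 0 := by linear_combination hl - l * h1
    exact one_ne_zero this
  have hβ : β ≠ 0 := by
    intro hβ
    have := x1.det_ne_zero
    rw [hx1', hβ, det_fin_two] at this
    simp at this
  -- powers of h
  have hpow : ∀ n : ℕ, ((h ^ n : GL (Fin 2) F) : M2 F) = !![(-l) ^ n, 0; 0, 1] := by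
    intro n
    induction n with
    | zero =>
      ext i j
      fin_cases i <;> fin_cases j <;> simp
    | succ n ih =>
      rw [pow_succ, Units.val_mul, ih, hh', Matrix.mul_fin_two]
      ext i j
      fin_cases i <;> fin_cases j <;> simp [pow_succ]
  have hlk : ∀ k : ℕ, 1 ≤ k → k ≤ 5 → (-l) ^ k ≠ 1 := by
    intro k hk1 hk5 hk
    interval_cases k
    · apply hlp
      linear_combination -hk
    · apply hl1
      have h4 : (l - 1) * (l + 1) = 0 := by linear_combination hk
      rcases mul_eq_zero.1 h4 with h5 | h5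
      · linear_combination -h5
      · exact absurd (by linear_combination h5) hlp
    · apply h2
      linear_combination -hk - hl3
    · have h4 : l = 1 := by linear_combination hk - l * hl3
      exact hl1 (by rw [h4]; ring)
    · have h4 : l ^ 2 = -1 := by linear_combination -hk - l ^ 2 * hl3
      apply hl0
      linear_combination hl - h4
  have hnosc : ∀ (k : ℕ) (c : F), 1 ≤ k → k ≤ 5 →
      ((h ^ k : GL (Fin 2) F) : M2 F) ≠ !![c, 0; 0, c] := by
    intro k c hk1 hk5 hk
    rw [hpow] at hk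
    have e1 := congrFun (congrFun hk 0) 0
    have e2 := congrFun (congrFun hk 1) 1
    simp at e1 e2
    exact hlk k hk1 hk5 (e1.trans e2.symm)
  -- a parabolic element
  have hpar : ∃ u ∈ X, (u : M2 F).trace ^ 2 = 4 * (u : M2 F).det ∧
      ∀ c : F, (u : M2 F) ≠ !![c, 0; 0, c] := by
    have key : ∀ g ∈ X, (g : M2 F) 0 0 ≠ 0 → (g : M2 F) 0 1 ≠ 0 → (g : M2 F) 1 0 ≠ 0 →
        ∃ u ∈ X, (u : M2 F).trace ^ 2 = 4 * (u : M2 F).det ∧
          ∀ c : F, (u : M2 F) ≠ !![c, 0; 0, c] := by
      intro g hg g00 g01 g10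
      have hgf : (g : M2 F) = !![(g : M2 F) 0 0, (g : M2 F) 0 1; (g : M2 F) 1 0, (g : M2 F) 1 1] := by
        ext i j
        fin_cases i <;> fin_cases j <;> rfl
      refine hDPAR F h2 X h g hh hg ?_ ?_ ?_ hnosc
      · rw [hh', hgf, Matrix.mul_fin_two, Matrix.mul_fin_two, det_fin_two]
        simp only [Matrix.sub_apply, Matrix.of_apply, Matrix.cons_val', Matrix.cons_val_zero,
          Matrix.cons_val_one, Matrix.cons_val_fin_one]
        have e : (-l * (g : M2 F) 0 0 + 0 * (g : M2 F) 1 0 -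
            ((g : M2 F) 0 0 * -l + (g : M2 F) 0 1 * 0)) *
            (0 * (g : M2 F) 0 1 + 1 * (g : M2 F) 1 1 -
              ((g : M2 F) 1 0 * 0 + (g : M2 F) 1 1 * 1)) -
            (-l * (g : M2 F) 0 1 + 0 * (g : M2 F) 1 1 -
              ((g : M2 F) 0 0 * 0 + (g : M2 F) 0 1 * 1)) *
            (0 * (g : M2 F) 0 0 + 1 * (g : M2 F) 1 0 -
              ((g : M2 F) 1 0 * -l + (g : M2 F) 1 1 * 0)) =
            (1 + l) ^ 2 * (g : M2 F) 0 1 * (g : M2 F) 1 0 := by ring
        rw [e]
        exact mul_ne_zero (mul_ne_zero (pow_ne_zero 2 hlp) g01) g10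
      · rw [hh', trace_fin_two]
        simp
        intro h5
        apply hl1
        linear_combination h5
      · rw [hh', adjugate_fin_two, hgf, Matrix.mul_fin_two]
        intro h5
        have e := congrFun (congrFun h5 0) 0
        simp at e
        apply hlp
        have e2 : (g : M2 F) 0 0 * (1 + l) = 0 := by linear_combination -e
        exact (mul_eq_zero.1 e2).resolve_left g00
    by_cases g01 : (g0 : M2 F) 0 1 = 0
    · have hdet := g0.det_ne_zero
      rw [det_fin_two, g01, zero_mul, sub_zero] at hdet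
      have h11 : (g0 : M2 F) 1 1 ≠ 0 := right_ne_zero_of_mul hdet
      have hgf : (g0 : M2 F) = !![(g0 : M2 F) 0 0, (g0 : M2 F) 0 1; (g0 : M2 F) 1 0, (g0 : M2 F) 1 1] := by
        ext i j
        fin_cases i <;> fin_cases j <;> rfl
      have e : ((x1 * g0 : GL (Fin 2) F) : M2 F) = !![β * (g0 : M2 F) 1 0, β * (g0 : M2 F) 1 1;
          (g0 : M2 F) 0 0, 0] := by
        rw [Units.val_mul, hx1', hgf, Matrix.mul_fin_two, g01]
        ext i j
        fin_cases i <;> fin_cases j <;> simp
      refine key (x1 * g0) (X.mul_mem hx1 hg0) ?_ ?_ ?_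
      · rw [e]
        simpa using ⟨hβ, h10⟩
      · rw [e]
        simpa using ⟨hβ, h11⟩
      · rw [e]
        simpa using h00
    · exact key g0 hg0 h00 g01 h10
  obtain ⟨u, huX, htr, husc⟩ := hpar
  have hdu : ((u : M2 F) 0 0 - (u : M2 F) 1 1) ^ 2 + 4 * (u : M2 F) 0 1 * (u : M2 F) 1 0 = 0 := by
    rw [trace_fin_two, det_fin_two] at htr
    linear_combination htr
  obtain ⟨x0, hx0⟩ := disc_par h2 u hdu husc
  -- the group
  let K := X.map (act F)
  have hfin : Finite K := by
    refine Finite.of_surjective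
      (fun x : X => (⟨act F x.1, Subgroup.mem_map_of_mem _ x.2⟩ : K)) ?_
    rintro ⟨y, hy⟩
    obtain ⟨x, hx, rfl⟩ := Subgroup.mem_map.1 hy
    exact ⟨⟨x, hx⟩, rfl⟩
  have hZ : Zas K (Om F) := hZAX F h2 X
  have hK : ∀ v : K, ∃ g ∈ X, ∀ y : Om F, v • y = act F g y := by
    rintro ⟨v, hv⟩
    obtain ⟨g, hg, rfl⟩ := Subgroup.mem_map.1 hv
    exact ⟨g, hg, fun y => rfl⟩
  have hXK : ∀ g ∈ X, ∃ v : K, ∀ y : Om F, v • y = act F g y := fun g hg =>
    ⟨⟨act F g, Subgroup.mem_map_of_mem _ hg⟩, fun y => rfl⟩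
  have hcoe0 : ((0 : AlgebraicClosure F) : Om F) ≠ ∞ := OnePoint.coe_ne_infty _
  have hx1inf : act F x1 ∞ = ((0 : AlgebraicClosure F) : Om F) := by
    have h4 : (x1 : M2 F) 1 0 ≠ 0 := by rw [hx1']; simp
    rw [act_infty_ne _ h4, hx1']
    simp
  have hx10 : act F x1 ((0 : AlgebraicClosure F) : Om F) = ∞ := by
    have h4 : act F (x1 * x1) ∞ = ∞ := by
      rw [act_scalar (c := β)]
      · rfl
      · rw [Units.val_mul, hx1', Matrix.mul_fin_two]
        ext i j
        fin_cases i <;> fin_cases j <;> simp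
    rw [map_mul] at h4
    have h5 : act F x1 (act F x1 ∞) = ∞ := h4
    rwa [hx1inf] at h5
  have hnofix : ∀ x : Om F, ∃ g : K, g • x ≠ x := by
    intro x
    induction x using OnePoint.rec with
    | infty =>
      obtain ⟨v, hv⟩ := hXK x1 hx1
      refine ⟨v, ?_⟩
      rw [hv, hx1inf]
      exact hcoe0
    | coe k =>
      by_cases hk : k = 0
      · obtain ⟨v, hv⟩ := hXK x1 hx1
        refine ⟨v, ?_⟩
        rw [hv, hk, hx10]
        exact hcoe0.symm
      · obtain ⟨v, hv⟩ := hXK h hh
        refine ⟨v, ?_⟩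
        rw [hv]
        intro h4
        rw [act_fix_coe, hh'] at h4
        simp only [Matrix.of_apply, Matrix.cons_val', Matrix.cons_val_zero,
          Matrix.cons_val_one, Matrix.cons_val_fin_one, map_zero, map_neg, map_one] at h4
        have h5 : (1 + am F l) * k = 0 := by linear_combination -h4
        rcases mul_eq_zero.1 h5 with h6 | h6
        · apply hlp
          apply (_root_.map_eq_zero (am F)).1
          rw [map_add, map_one]
          exact h6
        · exact hk h6
  have hordp : ∀ (v : K) (x : Om F), v ≠ 1 → Par v x → orderOf v = p := fun v x hv hvx =>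
    orderOf_eq_prime (order_par p h2 X v x hvx) hv
  have hne1 : ∀ (v : K) (x : Om F), Par v x → v ≠ 1 := by
    rintro v x hv rfl
    by_cases hx : x = ∞
    · have := (hv ((0 : AlgebraicClosure F) : Om F)).1 (one_smul _ _)
      rw [hx] at this
      exact hcoe0 this
    · have := (hv ∞).1 (one_smul _ _)
      exact hx this.symm
  obtain ⟨u', hu'⟩ := hXK u huX
  have hu'par : Par u' x0 := fun y => by rw [hu']; exact hx0 y
  have hD := hDK1 K (Om F) hZ hnofix x0 u' (hne1 u' x0 hu'par) hu'par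
    (by rw [hordp u' x0 (hne1 u' x0 hu'par) hu'par]; exact hp5)
  -- infinity is in the orbit of x0
  have hinf : ∃ g : K, g • x0 = ∞ := by
    by_contra hno
    have hdvd := hD.2 ∞ hno
    obtain ⟨n, hn⟩ := card_par p K (Om F) hZ x0 (fun v hv => order_par p h2 X v x0 hv)
    rw [hn] at hdvd
    have h6 : 6 ∣ Nat.card (MulAction.stabilizer K (∞ : Om F)) := by
      have hst : (⟨act F h, Subgroup.mem_map_of_mem _ hh⟩ : K) ∈
          MulAction.stabilizer K (∞ : Om F) := by
        rw [MulAction.mem_stabilizer_iff]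
        show act F h ∞ = ∞
        rw [act_infty, hh']
        simp
      have hiff : ∀ m : ℕ, (⟨⟨act F h, Subgroup.mem_map_of_mem _ hh⟩, hst⟩ :
          MulAction.stabilizer K (∞ : Om F)) ^ m = 1 ↔ act F (h ^ m) = 1 := by
        intro m
        rw [map_pow, Subtype.ext_iff, Subtype.ext_iff]
        rfl
      have hord6 : orderOf (⟨⟨act F h, Subgroup.mem_map_of_mem _ hh⟩, hst⟩ :
          MulAction.stabilizer K (∞ : Om F)) = 6 := by
        rw [orderOf_eq_iff (by norm_num)]
        constructor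
        · rw [hiff]
          apply act_scalar (c := 1)
          rw [hpow]
          have e : (-l) ^ 6 = 1 := by linear_combination (l ^ 3 + 1) * hl3
          rw [e]
        · intro m hm hm0 hm1
          rw [hiff] at hm1
          obtain ⟨c, hc⟩ := act_ker hm1
          exact hnosc m c hm0 (by omega) hc
      rw [← hord6]
      exact orderOf_dvd_natCard _
    have h7 := h6.trans hdvd
    have h8 : p ^ n % 6 = 1 := by
      rw [Nat.pow_mod, hp6, one_pow]
      rfl
    omega
  obtain ⟨k0, hk0⟩ := hinf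
  -- the parabolic element at infinity
  have hu2 : Par (k0 * u' * k0⁻¹) (∞ : Om F) := by
    intro y
    rw [mul_smul, mul_smul, ← eq_inv_smul_iff, hu'par]
    rw [inv_smul_eq_iff, hk0]
  have hD2 := (hDK1 K (Om F) hZ hnofix ∞ (k0 * u' * k0⁻¹) (hne1 _ _ hu2) hu2
    (by rw [hordp _ _ (hne1 _ _ hu2) hu2]; exact hp5)).1
  -- elements fixing exactly infinity
  have hinfpar : ∀ v : K, Par v (∞ : Om F) → ∃ g ∈ X, ∃ c u : F, c ≠ 0 ∧ u ≠ 0 ∧
      (g : M2 F) = c • !![1, u; 0, 1] ∧ ∀ y : Om F, v • y = act F g y := by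
    intro v hv
    obtain ⟨g, hg, hgv⟩ := hK v
    have hv' : ∀ y : Om F, act F g y = y ↔ y = ∞ := fun y => by rw [← hgv]; exact hv y
    have g10 : (g : M2 F) 1 0 = 0 := (act_infty g).1 ((hv' ∞).2 rfl)
    have hd := par_disc h2 g ∞ hv'
    rw [g10, mul_zero, add_zero] at hd
    have had : (g : M2 F) 0 0 = (g : M2 F) 1 1 :=
      sub_eq_zero.1 (pow_eq_zero_iff (by norm_num) |>.1 hd)
    have hdet := g.det_ne_zero
    rw [det_fin_two, g10, mul_zero, sub_zero] at hdet
    have g00 : (g : M2 F) 0 0 ≠ 0 := left_ne_zero_of_mul hdet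
    have g01 : (g : M2 F) 0 1 ≠ 0 := by
      intro hb
      have h4 : act F g = 1 := by
        apply act_scalar (c := (g : M2 F) 0 0)
        ext i j
        fin_cases i <;> fin_cases j <;> simp [hb, g10, had]
      have h5 := (hv' ((0 : AlgebraicClosure F) : Om F)).1 (by rw [h4]; rfl)
      exact hcoe0 h5
    refine ⟨g, hg, (g : M2 F) 0 0, (g : M2 F) 0 1 / (g : M2 F) 0 0, g00, div_ne_zero g01 g00, ?_,
      hgv⟩
    ext i j
    fin_cases i <;> fin_cases j <;> simp [g10, had]
    rw [← had]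
    field_simp
  have hact_ug : ∀ (g : GL (Fin 2) F) (c u : F), c ≠ 0 → (g : M2 F) = c • !![1, u; 0, 1] →
      act F g ((0 : AlgebraicClosure F) : Om F) = ((am F u : AlgebraicClosure F) : Om F) := by
    intro g c u hc hg
    have hc' : am F c ≠ 0 := (_root_.map_ne_zero _).2 hc
    have e10 : (g : M2 F) 1 0 = 0 := by rw [hg]; simp
    have e11 : (g : M2 F) 1 1 = c := by rw [hg]; simp
    have e01 : (g : M2 F) 0 1 = c * u := by rw [hg]; simp
    rw [act_coe g 0 (by rw [e10, e11, map_zero, zero_mul, zero_add]; exact hc')]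
    rw [e10, e11, e01, map_zero, mul_zero, zero_add, zero_mul, zero_add, map_mul,
      mul_div_cancel_left₀ _ hc']
  let U : AddSubgroup F :=
    { carrier := {u | ∃ g ∈ X, ∃ c : F, c ≠ 0 ∧ (g : M2 F) = c • !![1, u; 0, 1]}
      zero_mem' := by
        refine ⟨1, X.one_mem, 1, one_ne_zero, ?_⟩
        ext i j
        fin_cases i <;> fin_cases j <;> simp
      add_mem' := by
        rintro a b ⟨g, hg, c, hc, hg'⟩ ⟨g2, hg2, c2, hc2, hg2'⟩
        refine ⟨g * g2, X.mul_mem hg hg2, c * c2, mul_ne_zero hc hc2, ?_⟩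
        rw [Units.val_mul, hg', hg2', smul_mul_smul_comm, Matrix.mul_fin_two]
        congr 1
        ext i j
        fin_cases i <;> fin_cases j <;> simp [add_comm]
      neg_mem' := by
        rintro a ⟨g, hg, c, hc, hg'⟩
        refine ⟨g⁻¹, X.inv_mem hg, c⁻¹, inv_ne_zero hc, ?_⟩
        have e : (g : M2 F) * (c⁻¹ • !![1, -a; 0, 1]) = 1 := by
          rw [hg', smul_mul_smul_comm, Matrix.mul_fin_two, mul_inv_cancel₀ hc, one_smul]
          ext i j
          fin_cases i <;> fin_cases j <;> simp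
        have e2 : ((g⁻¹ : GL (Fin 2) F) : M2 F) * (g : M2 F) = 1 := by
          rw [← Units.val_mul, inv_mul_cancel, Units.val_one]
        calc ((g⁻¹ : GL (Fin 2) F) : M2 F)
            = ((g⁻¹ : GL (Fin 2) F) : M2 F) * ((g : M2 F) * (c⁻¹ • !![1, -a; 0, 1])) := by
              rw [e, mul_one]
          _ = c⁻¹ • !![1, -a; 0, 1] := by rw [← mul_assoc, e2, one_mul] }
  have hUmem : ∀ u : F, u ∈ U ↔ ∃ g ∈ X, ∃ c : F, c ≠ 0 ∧ (g : M2 F) = c • !![1, u; 0, 1] :=
    fun u => Iff.rfl
  have horb0 : ∃ g : K, g • (∞ : Om F) = ((0 : AlgebraicClosure F) : Om F) := by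
    obtain ⟨v, hv⟩ := hXK x1 hx1
    exact ⟨v, by rw [hv, hx1inf]⟩
  have horb : ∀ z : Om F, (∃ g : K, g • (∞ : Om F) = z) → z ≠ ∞ →
      ∃ u ∈ U, z = ((am F u : AlgebraicClosure F) : Om F) := by
    intro z hz hz'
    obtain ⟨v, hv, hvz⟩ := hD2 _ z horb0 hcoe0 hz hz'
    rcases hv with rfl | hv
    · refine ⟨0, U.zero_mem, ?_⟩
      rw [← hvz, map_zero]
      rfl
    · obtain ⟨g, hg, c, u, hc, hu, hgm, hgv⟩ := hinfpar v hv
      refine ⟨u, ⟨g, hg, c, hc, hgm⟩, ?_⟩
      rw [← hvz, hgv, hact_ug g c u hc hgm]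
  have hU_orb : ∀ u ∈ U, ∃ g : K, g • (∞ : Om F) = ((am F u : AlgebraicClosure F) : Om F) := by
    rintro u ⟨g, hg, c, hc, hgm⟩
    obtain ⟨v, hv⟩ := hXK g hg
    obtain ⟨w, hw⟩ := horb0
    refine ⟨v * w, ?_⟩
    rw [mul_smul, hw, hv, hact_ug g c u hc hgm]
  refine ⟨U, ?_, fun u hu => hu, ?_, ?_⟩
  · intro hbot
    obtain ⟨g, hg, c, u, hc, hu, hgm, -⟩ := hinfpar _ hu2
    have h4 : u ∈ U := ⟨g, hg, c, hc, hgm⟩
    rw [hbot, AddSubgroup.mem_bot] at h4
    exact hu h4
  · intro g hg u hu hne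
    obtain ⟨v, hv⟩ := hXK g hg
    obtain ⟨w, hw⟩ := hU_orb u hu
    have hne' : am F ((g : M2 F) 1 0) * am F u + am F ((g : M2 F) 1 1) ≠ 0 := by
      rw [← map_mul, ← map_add]
      exact (_root_.map_ne_zero _).2 hne
    have h4 : act F g ((am F u : AlgebraicClosure F) : Om F) = _ := act_coe g (am F u) hne'
    obtain ⟨u2, hu2U, hu2e⟩ := horb _ ⟨v * w, by rw [mul_smul, hw, hv, h4]⟩
      (OnePoint.coe_ne_infty _)
    have h5 := OnePoint.coe_injective hu2e
    rw [← map_mul, ← map_mul, ← map_add, ← map_add, ← map_div₀] at h5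
    rw [(am F).injective h5]
    exact hu2U
  · intro g hg hne
    obtain ⟨v, hv⟩ := hXK g hg
    obtain ⟨u2, hu2U, hu2e⟩ := horb _ ⟨v, by rw [hv, act_infty_ne g hne]⟩
      (OnePoint.coe_ne_infty _)
    have h5 := OnePoint.coe_injective hu2e
    rw [← map_div₀] at h5
    rw [(am F).injective h5]
    exact hu2U

end Pool.Agent.H63.SCG2
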