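import Pool.Agent.H24.SCG2.Base3

/-!
Project SCG2, module Q7G: generation for `q = 7`.
-/

namespace Pool.Agent.H63.SCG2

open Matrix Pool.SCG

variable {F : Type} [Field F]

/-- transvections in the plane of the first two basis vectors -/
def Nt (p q s : F) : Matrix (Fin 3) (Fin 3) F :=
  !![1 - s * p * q, s * p ^ 2, 0; -(s * q ^ 2), 1 + s * p * q, 0; 0, 0, 1]

theorem Nt_mul (p q s t : F) : Nt p q s * Nt p q t = Nt p q (s + t) := by
  ext i j
  fin_cases i <;> fin_cases j <;> simp [Nt, Matrix.mul_apply, Fin.sum_univ_three] <;> ring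

theorem Nt_zero (p q : F) : Nt p q 0 = 1 := by
  ext i j
  fin_cases i <;> fin_cases j <;> simp [Nt]

theorem Nt_scale (l p q s : F) : Nt (l * p) (l * q) s = Nt p q (l ^ 2 * s) := by
  ext i j
  fin_cases i <;> fin_cases j <;> simp [Nt] <;> ring

theorem seven [Finite F] (hF : Nat.card F = 7) : (7 : F) = 0 := by
  have := Fintype.ofFinite F
  have h := Nat.cast_card_eq_zero F
  rw [← Nat.card_eq_fintype_card, hF] at h
  exact_mod_cast h

theorem elts [Finite F] (hF : Nat.card F = 7) (x : F) :
    x = 0 ∨ x = 1 ∨ x = 2 ∨ x = 3 ∨ x = 4 ∨ x = 5 ∨ x = 6 := by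
  have := Fintype.ofFinite F
  have h7 := seven hF
  have h1 : x ^ 7 = x := by
    have := FiniteField.pow_card x
    rw [← Nat.card_eq_fintype_card, hF] at this
    exact this
  have h2 : x * ((x - 1) * ((x - 2) * ((x - 3) * ((x - 4) * ((x - 5) * (x - 6)))))) = 0 := by
    linear_combination h1 + (-3 * x ^ 6 + 25 * x ^ 5 - 105 * x ^ 4 + 232 * x ^ 3 - 252 * x ^ 2 +
      103 * x) * h7
  rcases mul_eq_zero.1 h2 with h | h
  · exact Or.inl h
  rcases mul_eq_zero.1 h with h | h
  · exact Or.inr (Or.inl (sub_eq_zero.1 h))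
  rcases mul_eq_zero.1 h with h | h
  · exact Or.inr (Or.inr (Or.inl (sub_eq_zero.1 h)))
  rcases mul_eq_zero.1 h with h | h
  · exact Or.inr (Or.inr (Or.inr (Or.inl (sub_eq_zero.1 h))))
  rcases mul_eq_zero.1 h with h | h
  · exact Or.inr (Or.inr (Or.inr (Or.inr (Or.inl (sub_eq_zero.1 h)))))
  rcases mul_eq_zero.1 h with h | h
  · exact Or.inr (Or.inr (Or.inr (Or.inr (Or.inr (Or.inl (sub_eq_zero.1 h))))))
  · exact Or.inr (Or.inr (Or.inr (Or.inr (Or.inr (Or.inr (sub_eq_zero.1 h))))))

theorem elts_nat [Finite F] (hF : Nat.card F = 7) (x : F) : ∃ n : ℕ, x = (n : F) := by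
  rcases elts hF x with h | h | h | h | h | h | h
  · exact ⟨0, by rw [h]; norm_num⟩
  · exact ⟨1, by rw [h]; norm_num⟩
  · exact ⟨2, by rw [h]; norm_num⟩
  · exact ⟨3, by rw [h]; norm_num⟩
  · exact ⟨4, by rw [h]; norm_num⟩
  · exact ⟨5, by rw [h]; norm_num⟩
  · exact ⟨6, by rw [h]; norm_num⟩

theorem Nt_pow {H : Subgroup (MulAut (SL3 F))} {p q s : F} (h : InA H (Nt p q s)) (n : ℕ) :
    InA H (Nt p q ((n : F) * s)) := by
  induction n with
  | zero =>
    rw [Nat.cast_zero, zero_mul, Nt_zero]
    exact InA.one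
  | succ n ih =>
    have h1 := ih.mul h
    rw [Nt_mul] at h1
    have e : ((n + 1 : ℕ) : F) * s = (n : F) * s + s := by push_cast; ring
    rw [e]
    exact h1

/-- the matrix of `d` -/
def Dm (F : Type) [Field F] : Matrix (Fin 3) (Fin 3) F := !![-3, 4, 0; -2, 3, 0; 0, 0, -1]

theorem Dm_sq : Dm F * Dm F = 1 := by
  ext i j
  fin_cases i <;> fin_cases j <;> simp [Dm, Matrix.mul_apply, Fin.sum_univ_three] <;> norm_num

theorem q7g_thm (hPLN : PLNStmt) : Q7GStmt := by
  intro F _ _ hF a b c d hg
  have h7 : (7 : F) = 0 := seven hF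
  set H : Subgroup (MulAut (SL3 F)) := Subgroup.closure ({b, c, d} : Set (MulAut (SL3 F))) with hH
  have hbH : b ∈ H := Subgroup.subset_closure (by simp)
  have hcH : c ∈ H := Subgroup.subset_closure (by simp)
  have hdH : d ∈ H := Subgroup.subset_closure (by simp)
  -- the three matrices
  have hC : InA H (blk (-1) !![0, 1; 1, 0] : Matrix (Fin 3) (Fin 3) F) := by
    refine hg.hc.inA hcH ?_
    simp [blk, Matrix.det_fin_three]
  have hD : InA H (Dm F) := by
    refine hg.hd.inA hdH ?_
    simp [Matrix.det_fin_three]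
    norm_num
  have hT : InA H (dg 1 2 4 : Matrix (Fin 3) (Fin 3) F) := by
    have h1 : GIs (b * c) true (dg (-1) 2 4 * blk (-1) !![0, 1; 1, 0]) := hg.hb.mul_inner hg.hc
    have h2 : GIs (b * c * (b * c)) false _ := h1.mul_outer h1
      (A' := !![1, 0, 0; 0, 0, 2; 0, 4, 0]) (by
        ext i j
        fin_cases i <;> fin_cases j <;>
          simp [dg, blk, Matrix.mul_apply, Fin.sum_univ_three] <;>
          linear_combination h7)
    have e : (!![1, 0, 0; 0, 0, 2; 0, 4, 0] : Matrix (Fin 3) (Fin 3) F).transpose *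
        (dg (-1) 2 4 * blk (-1) !![0, 1; 1, 0]) = dg 1 2 4 := by
      ext i j
      fin_cases i <;> fin_cases j <;>
        simp [dg, blk, Matrix.mul_apply, Fin.sum_univ_three, Matrix.vecHead, Matrix.vecTail] <;>
        first | linear_combination 2 * h7 | linear_combination h7 | linear_combination 0 * h7
    rw [e] at h2
    refine h2.inA (H.mul_mem (H.mul_mem hbH hcH) (H.mul_mem hbH hcH)) ?_
    simp [dg, Matrix.det_fin_three]
    linear_combination h7
  -- the first transvection
  have hN1 : InA H (Nt 1 1 2 : Matrix (Fin 3) (Fin 3) F) := by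
    have h1 : InA H (dg 1 4 2 : Matrix (Fin 3) (Fin 3) F) := hT.inv (by
      ext i j
      fin_cases i <;> fin_cases j <;> simp [dg, Matrix.mul_apply, Fin.sum_univ_three] <;>
        linear_combination h7)
    have h2 := hD.mul ((hT.mul hD).mul h1)
    have h3 := h2.mul h2
    have e : Dm F * (dg 1 2 4 * Dm F * dg 1 4 2) * (Dm F * (dg 1 2 4 * Dm F * dg 1 4 2)) =
        Nt 1 1 2 := by
      have e0 : Dm F * (dg 1 2 4 * Dm F * dg 1 4 2) = !![0, -1, 0; 1, 5, 0; 0, 0, 1] := by
        ext i j
        fin_cases i <;> fin_cases j <;>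
          simp [dg, Dm, Matrix.mul_apply, Fin.sum_univ_three] <;>
          first
            | linear_combination 0 * h7 | linear_combination 1 * h7 | linear_combination (-1) * h7
            | linear_combination 2 * h7 | linear_combination (-2) * h7 | linear_combination 3 * h7
            | linear_combination (-3) * h7 | linear_combination 4 * h7 | linear_combination 5 * h7
            | linear_combination 7 * h7 | linear_combination (-5) * h7 | linear_combination (-7) * h7
      rw [e0]
      ext i j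
      fin_cases i <;> fin_cases j <;>
        simp [Nt, Matrix.mul_apply, Fin.sum_univ_three] <;>
        first
          | linear_combination 0 * h7 | linear_combination 1 * h7 | linear_combination (-1) * h7
          | linear_combination 2 * h7 | linear_combination (-2) * h7 | linear_combination 3 * h7
          | linear_combination (-3) * h7 | linear_combination 4 * h7 | linear_combination 5 * h7
          | linear_combination 7 * h7 | linear_combination (-5) * h7 | linear_combination (-7) * h7
    rwa [e] at h3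
  -- transvections with a given line
  have hall : ∀ p q : F, (∃ s0 r0 : F, r0 * s0 = 1 ∧ InA H (Nt p q s0)) →
      ∀ s : F, InA H (Nt p q s) := by
    intro p q ⟨s0, r0, h1, h2⟩ s
    obtain ⟨n, hn⟩ := elts_nat hF (s * r0)
    have h3 := Nt_pow h2 n
    rw [← hn, mul_assoc, h1, mul_one] at h3
    exact h3
  have hsT : ∀ p q : F, (∀ s : F, InA H (Nt p q s)) → ∀ s : F, InA H (Nt p (2 * q) s) := by
    intro p q h s
    have h1 : InA H (dg 1 4 2 : Matrix (Fin 3) (Fin 3) F) := hT.inv (by
      ext i j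
      fin_cases i <;> fin_cases j <;> simp [dg, Matrix.mul_apply, Fin.sum_univ_three] <;>
        linear_combination h7)
    have h2 := (hT.mul (h (2 * s))).mul h1
    have e : dg 1 2 4 * Nt p q (2 * s) * dg 1 4 2 = Nt p (2 * q) s := by
      ext i j
      fin_cases i <;> fin_cases j <;>
        simp [dg, Nt, Matrix.mul_apply, Fin.sum_univ_three]
      · ring
      · linear_combination s * p ^ 2 * h7
      · linear_combination 0 * h7
      · linear_combination (1 + 2 * s * p * q) * h7
      · linear_combination h7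
    rwa [e] at h2
  have hsD : ∀ p q : F, (∀ s : F, InA H (Nt p q s)) →
      ∀ s : F, InA H (Nt (-3 * p + 4 * q) (-2 * p + 3 * q) s) := by
    intro p q h s
    have h2 := (hD.mul (h (-s))).mul hD
    have e : Dm F * Nt p q (-s) * Dm F = Nt (-3 * p + 4 * q) (-2 * p + 3 * q) s := by
      ext i j
      fin_cases i <;> fin_cases j <;>
        simp [Dm, Nt, Matrix.mul_apply, Fin.sum_univ_three] <;> ring
    rwa [e] at h2
  have hsc : ∀ l p q : F, (∀ s : F, InA H (Nt p q s)) →
      ∀ s : F, InA H (Nt (l * p) (l * q) s) := by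
    intro l p q h s
    rw [Nt_scale]
    exact h _
  -- the eight lines
  have h11 : ∀ s : F, InA H (Nt 1 1 s) := hall 1 1 ⟨2, 4, by linear_combination h7, hN1⟩
  have h12 : ∀ s : F, InA H (Nt 1 2 s) := by
    have h := hsT 1 1 h11
    rwa [show (2 : F) * 1 = 2 by ring] at h
  have h14 : ∀ s : F, InA H (Nt 1 4 s) := by
    have h := hsT 1 2 h12
    rwa [show (2 : F) * 2 = 4 by ring] at h
  have h15 : ∀ s : F, InA H (Nt 1 5 s) := by
    have h := hsc 3 _ _ (hsD 1 2 h12)
    rwa [show (3 : F) * (-3 * 1 + 4 * 2) = 1 by linear_combination 2 * h7,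
      show (3 : F) * (-2 * 1 + 3 * 2) = 5 by linear_combination 1 * h7] at h
  have h13 : ∀ s : F, InA H (Nt 1 3 s) := by
    have h := hsT 1 5 h15
    rwa [show (2 : F) * 5 = 3 by linear_combination 1 * h7] at h
  have h16 : ∀ s : F, InA H (Nt 1 6 s) := by
    have h := hsT 1 3 h13
    rwa [show (2 : F) * 3 = 6 by norm_num] at h
  have h10 : ∀ s : F, InA H (Nt 1 0 s) := by
    have h := hsc 4 _ _ (hsD 1 3 h13)
    rwa [show (4 : F) * (-3 * 1 + 4 * 3) = 1 by linear_combination 5 * h7,
      show (4 : F) * (-2 * 1 + 3 * 3) = 0 by linear_combination 4 * h7] at h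
  have h01 : ∀ s : F, InA H (Nt 0 1 s) := by
    have h := hsc 4 _ _ (hsD 1 6 h16)
    rwa [show (4 : F) * (-3 * 1 + 4 * 6) = 0 by
        linear_combination 12 * h7,
      show (4 : F) * (-2 * 1 + 3 * 6) = 1 by linear_combination 9 * h7] at h
  have hgen : ∀ p q s : F, InA H (Nt p q s) := by
    intro p q
    by_cases hp : p = 0
    · have h := hsc q _ _ h01
      rwa [mul_zero, mul_one, ← hp] at h
    · have h1 : ∀ s : F, InA H (Nt 1 (q / p) s) := by
        rcases elts hF (q / p) with h | h | h | h | h | h | h <;> rw [h] <;> assumption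
      have h := hsc p _ _ h1
      rwa [mul_one, mul_div_cancel₀ q hp] at h
  have hplane : ∀ p q x y : F, x * p + y * q = 0 →
      InA H (!![1 + p * x, p * y, 0; q * x, 1 + q * y, 0; 0, 0, 1] :
        Matrix (Fin 3) (Fin 3) F) := by
    intro p q x y h
    by_cases hp : p = 0
    · subst hp
      by_cases hq : q = 0
      · subst hq
        have h1 := hgen 0 0 0
        rw [Nt_zero] at h1
        have e : (!![1 + 0 * x, 0 * y, 0; 0 * x, 1 + 0 * y, 0; 0, 0, 1] :
            Matrix (Fin 3) (Fin 3) F) = 1 := by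
          ext i j
          fin_cases i <;> fin_cases j <;> simp
        rw [e]
        exact h1
      · have hy : y = 0 := by
          rw [mul_zero, zero_add] at h
          exact (mul_eq_zero.1 h).resolve_right hq
        subst hy
        have h1 := hgen 0 q (-(x / q))
        have e : Nt 0 q (-(x / q)) = !![1 + 0 * x, 0 * 0, 0; q * x, 1 + q * 0, 0; 0, 0, 1] := by
          ext i j
          fin_cases i <;> fin_cases j <;> simp [Nt]
          field_simp
        rw [← e]
        exact h1
    · have hx : x = -(y / p) * q := by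
        field_simp
        linear_combination h
      have h1 := hgen p q (y / p)
      have e : Nt p q (y / p) = !![1 + p * x, p * y, 0; q * x, 1 + q * y, 0; 0, 0, 1] := by
        rw [hx]
        ext i j
        fin_cases i <;> fin_cases j <;> simp [Nt] <;> field_simp <;> ring
      rw [← e]
      exact h1
  have hvec : ∀ u φ : Fin 3 → F, u 2 = 0 → φ 2 = 0 → φ ⬝ᵥ u = 0 →
      InA H (1 + vecMulVec u φ) := by
    intro u φ h1 h2 h3
    have h4 : φ 0 * u 0 + φ 1 * u 1 = 0 := by
      have h5 := h3
      rw [dotProduct, Fin.sum_univ_three, h1, mul_zero, add_zero] at h5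
      exact h5
    have h5 := hplane (u 0) (u 1) (φ 0) (φ 1) h4
    have e : (1 + vecMulVec u φ : Matrix (Fin 3) (Fin 3) F) =
        !![1 + u 0 * φ 0, u 0 * φ 1, 0; u 1 * φ 0, 1 + u 1 * φ 1, 0; 0, 0, 1] := by
      ext i j
      fin_cases i <;> fin_cases j <;> simp [Matrix.add_apply, vecMulVec_apply, h1, h2]
    rw [e]
    exact h5
  refine hPLN F H ![0, 0, 1] ![0, 0, 1] ![0, 1, 0] ![0, 1, 0] ![1, 0, 0] ?_ ?_ ?_ ?_ ?_ ?_ ?_ ?_
  · intro u φ h1 h2 h3
    refine hvec u φ ?_ ?_ h3
    · simpa [dotProduct, Fin.sum_univ_three] using h1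
    · simpa [dotProduct, Fin.sum_univ_three] using h2
  · intro u φ h1 h2 h3
    have hu : u 1 = 0 := by simpa [dotProduct, Fin.sum_univ_three] using h1
    have hφ : φ 1 = 0 := by simpa [dotProduct, Fin.sum_univ_three] using h2
    have h4 : φ 0 * u 0 + φ 2 * u 2 = 0 := by
      have h5 := h3
      rw [dotProduct, Fin.sum_univ_three, hu, mul_zero, add_zero] at h5
      exact h5
    have h5 : InA H (1 + vecMulVec ![-u 0, u 2, 0] ![-φ 0, φ 2, 0]) := by
      refine hvec _ _ rfl rfl ?_
      simp [dotProduct, Fin.sum_univ_three]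
      linear_combination h4
    have h6 := (hC.mul h5).mul hC
    have e0 : (1 + vecMulVec ![-u 0, u 2, 0] ![-φ 0, φ 2, 0] : Matrix (Fin 3) (Fin 3) F) =
        !![1 + u 0 * φ 0, -(u 0 * φ 2), 0; -(u 2 * φ 0), 1 + u 2 * φ 2, 0; 0, 0, 1] := by
      ext i j
      fin_cases i <;> fin_cases j <;> simp [Matrix.add_apply]
    have e : (blk (-1) !![0, 1; 1, 0] : Matrix (Fin 3) (Fin 3) F) *
        (1 + vecMulVec ![-u 0, u 2, 0] ![-φ 0, φ 2, 0]) * blk (-1) !![0, 1; 1, 0] =
        1 + vecMulVec u φ := by
      rw [e0]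
      ext i j
      fin_cases i <;> fin_cases j <;>
        simp [blk, Matrix.mul_apply, Fin.sum_univ_three, Matrix.add_apply, vecMulVec_apply, hu, hφ]
    rw [e] at h6
    exact h6
  · simp [dotProduct, Fin.sum_univ_three]
  · simp [dotProduct, Fin.sum_univ_three]
  · simp [dotProduct, Fin.sum_univ_three]
  · simp [dotProduct, Fin.sum_univ_three]
  · simp [Matrix.det_fin_three]
  · exact ⟨![0, 1, 0], by simp [dotProduct, Fin.sum_univ_three],
      by simp [dotProduct, Fin.sum_univ_three]⟩

end Pool.Agent.H63.SCG2
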